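import Pool.Agent.W938.QB.Defs

/-!
# Quantum proofs with `r(n)` questions, and classical proofs of length `f(n)`
-/

set_option autoImplicit false

namespace Pool.Agent.W938.QC

open Pool.Agent.NPC Pool.Agent.H620R2.Gauge Pool.Agent.W938.Hyb Pool.Agent.W938.QB

/-- The promise problem `(Y, N)` (the strings in `Y` are to be accepted and the strings in `N` are to
be rejected) has quantum proofs relative to `O`, with completeness `c` and soundness `s`, with
witness states from the family `W` (`W b` is the set of the witness states of `b` qubits that a
prover may send; for `QMA` these are all states, for `QCMA` the basis states, for `QMA(k)` the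
products of `k` states), and with a verifier which asks, on inputs of length `n`, at most `r n`
questions concerning strings of even length in superposition. The verifier computes in polynomial
time relative to `O`, from the input `x` and a classical witness `w`, the string `F ⟨w, x⟩` and then,
in polynomial time, a quantum circuit with at most `r |x|` such questions (and any number of other
operations). The circuit is applied to the quantum witness `ψ`, a state of `p(|x|)` qubits, and to
`p(|x|)` ancillas. -/
def IsQMA (W : ∀ b : ℕ, Set ((Fin b → Bool) → ℂ)) (r : ℕ → ℕ) (c s : ℝ) (O : Oracle)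
    (Y N : Set (List Bool)) : Prop :=
  ∃ (F : List Bool → List Bool) (C : List Bool → List Op) (p : Polynomial ℕ),
    IsFP O F ∧ PolyTime (fun z => bits (C z)) ∧
    (∀ w x : List Bool, w.length ≤ p.eval x.length → numB (C (F (pairBits w x))) ≤ r x.length) ∧
    ∀ x : List Bool,
      (x ∈ Y → ∃ (w : List Bool) (ψ : (Fin (p.eval x.length) → Bool) → ℂ),
        w.length ≤ p.eval x.length ∧ ψ ∈ W (p.eval x.length) ∧ ∑ t, ‖ψ t‖ ^ 2 = 1 ∧
        c ≤ acc O (C (F (pairBits w x))) (p.eval x.length) ψ) ∧
      (x ∈ N → ∀ (w : List Bool) (ψ : (Fin (p.eval x.length) → Bool) → ℂ),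
        w.length ≤ p.eval x.length → ψ ∈ W (p.eval x.length) → ∑ t, ‖ψ t‖ ^ 2 = 1 →
        acc O (C (F (pairBits w x))) (p.eval x.length) ψ ≤ s)

/-- The promise problem `(Y, N)` has classical proofs of length `f n` relative to `O`: a verifier `V`,
computable relative to `O` in time polynomial in the length of the pair of the proof and the input,
accepts for every `x` in `Y` some proof of length at most `f |x|`, and for `x` in `N` no proof. -/
def IsNW (f : ℕ → ℕ) (O : Oracle) (Y N : Set (List Bool)) : Prop :=
  ∃ V : List Bool → List Bool, IsFP O V ∧ ∀ x : List Bool,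
    (x ∈ Y → ∃ w : List Bool, w.length ≤ f x.length ∧ V (pairBits w x) = [true]) ∧
    (x ∈ N → ∀ w : List Bool, V (pairBits w x) ≠ [true])

end Pool.Agent.W938.QC
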