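import Pool.Agent.W938.QC.Defs
import Pool.Agent.W938.QB.Fam
import Pool.Agent.W938.QB.Conv
import Pool.Agent.H889R3.RQ.C4

/-!
# The families of certificates of one verifier, for all numbers of questions
-/

set_option autoImplicit false
set_option linter.unusedSectionVars false

namespace Pool.Agent.W938.QC

open Finset Pool.Agent.NPC Pool.Agent.H620R2.Gauge Pool.Agent.W938.Hyb
open Pool.Agent.H628R3.RO (randomOracle)
open Pool.Agent.H889R3.RQ (poly_bound)
open Pool.Agent.W938.QM (Sq mem_Sq card_Sq Agree)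
open Pool.Agent.W938.QX (mix Ev mem_Ev)
open Pool.Agent.W938.QB

/-- The circuits with at most `ρ` questions. -/
def clip (ρ : ℕ) (C : List Bool → List Op) : List Bool → List Op :=
  fun z => if numB (C z) ≤ ρ then C z else []

lemma cir_clip (ρ : ℕ) (M : Alg) (C : List Bool → List Op) (O : Oracle) (u : List Bool) :
    cir M (clip ρ C) O u = if numB (cir M C O u) ≤ ρ then cir M C O u else [] := by
  unfold cir clip
  cases M.out O u with
  | none => simp
  | some z => rfl

lemma acc_nil0 {b m : ℕ} (O : Oracle) (ψ : (Fin b → Bool) → ℂ) : acc O [] m ψ = 0 := by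
  rcases Nat.eq_zero_or_pos m with h | h
  · subst h
    unfold acc
    refine Finset.sum_eq_zero fun s _ => ?_
    rw [if_neg]
    unfold rd
    rw [dif_neg (by omega)]
    exact Bool.false_ne_true
  · exact acc_nil h O ψ

/-- The bound for the size of the certificates. -/
lemma bd_bound (k : ℕ) (t q h ℓ : Polynomial ℕ) : ∃ d : ℕ, ∀ n ρ : ℕ, ρ ≤ ℓ.eval n →
    bd ρ k (t.eval n) (q.eval n) (h.eval n) (ℓ.eval n) (ℓ.eval n) ≤
      (n + 2) ^ (d * (ρ + 1) ^ 2) := by
  obtain ⟨a, ha⟩ := poly_bound (16 * ((ℓ * (q + 1) + 1) * ℓ * (ℓ + 1)) *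
    (2 * (t + ℓ * (ℓ + 1)) * (q + 2) +
      2 * (2 * (32 * Polynomial.C k ^ 2 * (ℓ + 1) ^ 2) + h)) *
      (16 * Polynomial.C k ^ 2 * (ℓ + 1)) ^ 2)
  obtain ⟨a', ha'⟩ := poly_bound (t + ℓ * (ℓ + 1))
  refine ⟨a' + a * (32 * k ^ 2), fun n ρ hρ => ?_⟩
  have h1 := ha n
  have h2 := ha' n
  simp only [Polynomial.eval_add, Polynomial.eval_mul, Polynomial.eval_pow, Polynomial.eval_C,
    Polynomial.eval_one, Polynomial.eval_ofNat] at h1 h2
  have hG : Gr ρ k (t.eval n) (q.eval n) (h.eval n) (ℓ.eval n) (ℓ.eval n) ≤ (n + 2) ^ a := by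
    refine le_trans ?_ h1
    unfold Gr
    simp only [Nat.cast_id]
    gcongr
  have hpos : 1 ≤ (n + 2) ^ (a * Jr ρ k) := Nat.one_le_pow _ _ (by omega)
  unfold bd
  simp only [Nat.cast_id]
  calc t.eval n + ℓ.eval n * (ρ + 1) *
        Gr ρ k (t.eval n) (q.eval n) (h.eval n) (ℓ.eval n) (ℓ.eval n) ^ Jr ρ k
      ≤ t.eval n * (n + 2) ^ (a * Jr ρ k) + ℓ.eval n * (ℓ.eval n + 1) * (n + 2) ^ (a * Jr ρ k) := by
        refine Nat.add_le_add (Nat.le_mul_of_pos_right _ hpos) ?_
        refine Nat.mul_le_mul (Nat.mul_le_mul_left _ (Nat.succ_le_succ hρ)) ?_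
        rw [pow_mul]
        exact Nat.pow_le_pow_left hG _
    _ = (t.eval n + ℓ.eval n * (ℓ.eval n + 1)) * (n + 2) ^ (a * Jr ρ k) := by rw [add_mul]
    _ ≤ (n + 2) ^ a' * (n + 2) ^ (a * Jr ρ k) := Nat.mul_le_mul_right _ h2
    _ = (n + 2) ^ (a' + a * Jr ρ k) := by rw [pow_add]
    _ ≤ (n + 2) ^ ((a' + a * (32 * k ^ 2)) * (ρ + 1) ^ 2) := by
        refine Nat.pow_le_pow_right (by omega) ?_
        have h3 : 1 ≤ (ρ + 1) ^ 2 := Nat.one_le_pow _ _ (by omega)
        have h4 : a * Jr ρ k = a * (32 * k ^ 2) * (ρ + 1) ^ 2 := by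
          unfold Jr
          ring
        have h5 : a' ≤ a' * (ρ + 1) ^ 2 := Nat.le_mul_of_pos_right _ h3
        rw [h4, add_mul]
        exact Nat.add_le_add_right h5 _

theorem fam (W : ∀ b : ℕ, Set ((Fin b → Bool) → ℂ)) (α β : ℝ) (hβ : 0 ≤ β) (k : ℕ) (hk : 0 < k)
    (hαβ : 1 / (k : ℝ) ≤ α - β) (M : Alg) (C : List Bool → List Op)
    (p : Polynomial ℕ) (hC : PolyTime (fun z => bits (C z))) :
    ∃ (P : Polynomial ℕ) (d : ℕ),
      (∀ (x : List Bool) (O O' : Oracle), (∀ z : List Bool, z.length ≤ P.eval x.length → O z = O' z) →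
        ∀ w : List Bool, w.length ≤ p.eval x.length →
        cir M C O' (pairBits w x) = cir M C O (pairBits w x) ∧
        (YesE W α M C (p.eval x.length) (p.eval x.length) (pairBits w x) O →
          YesE W α M C (p.eval x.length) (p.eval x.length) (pairBits w x) O') ∧
        (NoE W β M C (p.eval x.length) (p.eval x.length) (pairBits w x) O →
          NoE W β M C (p.eval x.length) (p.eval x.length) (pairBits w x) O')) ∧
      ∀ (B : Oracle) (x : List Bool), ∃ (T : Set (Finset (List Bool × Bool))) (Bad : Set Oracle),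
      (∀ c ∈ T, ∀ e ∈ c, e.1.length ≤ P.eval x.length ∧ e.1.length % 2 = 0) ∧
      MeasurableSet Bad ∧ randomOracle.real Bad ≤ (1 / 2) ^ (2 * x.length + 2) ∧
      ∀ A : Oracle, A ∉ Bad →
        (∀ ρ : ℕ, (∀ w : List Bool, w.length ≤ p.eval x.length →
            numB (cir M C (mix A B) (pairBits w x)) ≤ ρ) →
          (∃ w : List Bool, w.length ≤ p.eval x.length ∧
            YesE W α M C (p.eval x.length) (p.eval x.length) (pairBits w x) (mix A B)) →
            ∃ c ∈ T, c.card ≤ (x.length + 2) ^ (d * (ρ + 1) ^ 2) ∧ Agree A c) ∧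
        ((∀ w : List Bool, w.length ≤ p.eval x.length →
          NoE W β M C (p.eval x.length) (p.eval x.length) (pairBits w x) (mix A B)) →
            ¬ ∃ c ∈ T, Agree A c) := by
  classical
  obtain ⟨qb, hqb⟩ := M.out_local
  obtain ⟨ob, hob⟩ := M.out_length
  obtain ⟨cb, hcb⟩ := ops_bound hC
  set ln : Polynomial ℕ := 2 * p + 1 + Polynomial.X with hln
  have hlen : ∀ w x : List Bool, w.length ≤ p.eval x.length →
      (pairBits w x).length ≤ ln.eval x.length := by
    intro w x hw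
    rw [length_pairBits]
    simp only [hln, Polynomial.eval_add, Polynomial.eval_mul, Polynomial.eval_one,
      Polynomial.eval_X, Polynomial.eval_ofNat]
    omega
  set t : Polynomial ℕ := M.p.comp ln with ht
  set q : Polynomial ℕ := qb.comp ln + cb.comp (ob.comp ln) with hq
  set ℓ : Polynomial ℕ := cb.comp (ob.comp ln) + 1 with hℓ
  set h : Polynomial ℕ := p + 2 * Polynomial.X + 4 + ℓ with hh
  have hS : ∀ w x : List Bool, w.length ≤ p.eval x.length → ∀ O : Oracle,
      ∃ S : Finset (List Bool), S.card ≤ t.eval x.length ∧ (∀ z ∈ S, z.length ≤ q.eval x.length) ∧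
      ∀ O' : Oracle, (∀ z ∈ S, O' z = O z) → M.out O' (pairBits w x) = M.out O (pairBits w x) := by
    intro w x hw O
    have hl := hlen w x hw
    obtain ⟨S, h1, h2, h3⟩ := hqb O (pairBits w x)
    refine ⟨S, h1.trans ?_, fun z hz => (h2 z hz).trans ?_, h3⟩
    · rw [ht, Polynomial.eval_comp]
      exact eval_mono _ hl
    · rw [hq, QM.ev]
      exact (eval_mono _ hl).trans (Nat.le_add_right _ _)
  have hcb' : ∀ w x : List Bool, w.length ≤ p.eval x.length → ∀ (O : Oracle) z,
      M.out O (pairBits w x) = some z →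
      cb.eval z.length ≤ cb.eval (ob.eval (ln.eval x.length)) := by
    intro w x hw O z hz
    have hl := hlen w x hw
    have h2 := hob O _ z hz
    exact eval_mono cb (h2.trans (eval_mono ob hl))
  have hℓe : ∀ n : ℕ, ℓ.eval n = cb.eval (ob.eval (ln.eval n)) + 1 := by
    intro n
    rw [hℓ, Polynomial.eval_add, Polynomial.eval_comp, Polynomial.eval_comp, Polynomial.eval_one]
  have hg : ∀ w x : List Bool, w.length ≤ p.eval x.length → ∀ (O : Oracle) z,
      M.out O (pairBits w x) = some z → ∀ q' t', Sum.inr (Sum.inr (q', t')) ∈ C z →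
      q'.length ≤ q.eval x.length ∧ t'.length ≤ ℓ.eval x.length ∧
        ∀ e ∈ t', q'.length + e.1.length ≤ q.eval x.length := by
    intro w x hw O z hz q' t' hk
    obtain ⟨h1, h2, h3⟩ := (hcb z).2 q' t' hk
    have h4 := hcb' w x hw O z hz
    rw [hℓe, hq, QM.ev]
    refine ⟨by omega, by omega, fun e he => ?_⟩
    have h5 := h3 e he
    omega
  have hg2 : ∀ w x : List Bool, w.length ≤ p.eval x.length → ∀ (O : Oracle) z,
      M.out O (pairBits w x) = some z → (C z).length ≤ ℓ.eval x.length := by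
    intro w x hw O z hz
    have h1 := (hcb z).1
    have h4 := hcb' w x hw O z hz
    rw [hℓe]
    omega
  obtain ⟨d, hd0⟩ := bd_bound k t q h ℓ
  refine ⟨q, d, ?_, fun B x => ?_⟩
  · intro x O O' hO w hw
    have h1 : cir M C O' (pairBits w x) = cir M C O (pairBits w x) := by
      obtain ⟨S, -, h2, h3⟩ := hS w x hw O
      unfold cir
      rw [h3 O' fun z hz => (hO z (h2 z hz)).symm]
    have h2 : ∀ ψ : (Fin (p.eval x.length) → Bool) → ℂ,
        acc O' (cir M C O' (pairBits w x)) (p.eval x.length) ψ =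
          acc O (cir M C O (pairBits w x)) (p.eval x.length) ψ := by
      intro ψ
      rw [h1]
      refine acc_local (fun z hz => (hO z hz).symm) _ (fun q' t' hk => ?_) ψ
      unfold cir at hk
      cases ho : M.out O (pairBits w x) with
      | none => rw [ho] at hk; simp at hk
      | some y => rw [ho] at hk; exact (hg w x hw O y ho q' t' hk).2.2
    refine ⟨h1, ?_, ?_⟩
    · rintro ⟨ψ, h3, h4, h5⟩
      exact ⟨ψ, h3, h4, by rw [h2]; exact h5⟩
    · intro h3 ψ h4 h5
      rw [h2]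
      exact h3 ψ h4 h5
  set n := x.length with hn
  have hd : ∀ (w : List Bool) (ρ : ℕ), ∃ Ce : Finset (List Bool) → Oracle → Prop,
      w.length ≤ p.eval n →
      ((∀ (H : Finset (List Bool)) (A A' : Oracle), (∀ z ∈ H, A z = A' z) → Ce H A → Ce H A') ∧
      (∀ H A, Ce H A → H ⊆ Ev (q.eval n) ∧ H.card ≤ bd ρ k (t.eval n) (q.eval n) (h.eval n)
        (ℓ.eval n) (ℓ.eval n)) ∧
      MeasurableSet {A : Oracle |
        (YesE W α M (clip ρ C) (p.eval n) (p.eval n) (pairBits w x) (mix A B) ∧ ∀ H, ¬ Ce H A) ∨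
        (NoE W β M (clip ρ C) (p.eval n) (p.eval n) (pairBits w x) (mix A B) ∧ ∃ H, Ce H A)} ∧
      randomOracle.real {A : Oracle |
        (YesE W α M (clip ρ C) (p.eval n) (p.eval n) (pairBits w x) (mix A B) ∧ ∀ H, ¬ Ce H A) ∨
        (NoE W β M (clip ρ C) (p.eval n) (p.eval n) (pairBits w x) (mix A B) ∧ ∃ H, Ce H A)}
          ≤ (1 / 2) ^ (h.eval n)) := by
    intro w ρ
    by_cases hw : w.length ≤ p.eval n
    · obtain ⟨Ce, hCe⟩ := dev W α β k hk hαβ B M (clip ρ C) (p.eval n) (p.eval n) (pairBits w x) ρ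
        (t.eval n) (q.eval n) (h.eval n) (ℓ.eval n) (ℓ.eval n) (by rw [hℓe]; omega) (hS w x hw)
        (fun O z hz q' t' hk => by
          unfold clip at hk
          split_ifs at hk with h1
          · exact hg w x hw O z hz q' t' hk
          · simp at hk)
        (fun O z hz => by
          unfold clip
          split_ifs
          · exact hg2 w x hw O z hz
          · exact Nat.zero_le _)
        (fun z => by
          unfold clip
          split_ifs with h1
          · exact h1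
          · exact Nat.zero_le _)
      exact ⟨Ce, fun _ => hCe⟩
    · exact ⟨fun _ _ => False, fun hw' => absurd hw' hw⟩
  choose Ce hCe using hd
  set D : List Bool × ℕ → Set Oracle := fun a =>
    {A : Oracle | (YesE W α M (clip a.2 C) (p.eval n) (p.eval n) (pairBits a.1 x) (mix A B) ∧
        ∀ H, ¬ Ce a.1 a.2 H A) ∨
        (NoE W β M (clip a.2 C) (p.eval n) (p.eval n) (pairBits a.1 x) (mix A B) ∧
          ∃ H, Ce a.1 a.2 H A)} with hD
  refine ⟨{c | ∃ w : List Bool, w.length ≤ p.eval n ∧ ∃ ρ : ℕ, ρ ≤ ℓ.eval n ∧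
    ∃ (H : Finset (List Bool)) (A : Oracle), Ce w ρ H A ∧ c = H.image fun z => (z, A z)},
    ⋃ a ∈ Sq (p.eval n) ×ˢ Finset.range (ℓ.eval n + 1), D a, ?_, ?_, ?_, ?_⟩
  · rintro c ⟨w, hw, ρ, hρ, H, A, hc, rfl⟩
    obtain ⟨h1, h2⟩ := (hCe w ρ hw).2.1 H A hc
    intro e he
    obtain ⟨z, hz, rfl⟩ := Finset.mem_image.1 he
    exact mem_Ev.1 (h1 hz)
  · refine Finset.measurableSet_biUnion _ fun a ha => ?_
    exact (hCe a.1 a.2 (mem_Sq.1 (Finset.mem_product.1 ha).1)).2.2.1
  · refine (MeasureTheory.measureReal_biUnion_finset_le _ _).trans ?_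
    have h1 : ∑ a ∈ Sq (p.eval n) ×ˢ Finset.range (ℓ.eval n + 1), randomOracle.real (D a) ≤
        ∑ _a ∈ Sq (p.eval n) ×ˢ Finset.range (ℓ.eval n + 1), ((1 : ℝ) / 2) ^ (h.eval n) :=
      Finset.sum_le_sum fun a ha => (hCe a.1 a.2 (mem_Sq.1 (Finset.mem_product.1 ha).1)).2.2.2
    refine h1.trans ?_
    rw [Finset.sum_const, nsmul_eq_mul, Finset.card_product, Finset.card_range]
    have h2 : ((Sq (p.eval n)).card : ℝ) ≤ 2 ^ (p.eval n + 1) := by
      have := card_Sq (p.eval n)
      have h3 : (Sq (p.eval n)).card ≤ 2 ^ (p.eval n + 1) := by omega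
      exact_mod_cast h3
    have h2' : ((ℓ.eval n + 1 : ℕ) : ℝ) ≤ 2 ^ (ℓ.eval n + 1) := by
      have h3 : ℓ.eval n + 1 ≤ 2 ^ (ℓ.eval n + 1) := Nat.lt_two_pow_self.le
      exact_mod_cast h3
    have h3 : h.eval n = ((p.eval n + 1) + (ℓ.eval n + 1)) + (2 * n + 2) := by
      simp only [hh, Polynomial.eval_add, Polynomial.eval_mul, Polynomial.eval_X,
        Polynomial.eval_ofNat]
      omega
    rw [Nat.cast_mul]
    calc ((Sq (p.eval n)).card : ℝ) * ((ℓ.eval n + 1 : ℕ) : ℝ) * ((1 : ℝ) / 2) ^ (h.eval n)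
        ≤ 2 ^ (p.eval n + 1) * 2 ^ (ℓ.eval n + 1) * ((1 : ℝ) / 2) ^ (h.eval n) := by gcongr
      _ = (1 / 2) ^ (2 * n + 2) := by
          rw [h3, pow_add (1 / 2 : ℝ), ← pow_add, ← mul_assoc, ← mul_pow]
          norm_num
  · intro A hA
    have hA' : ∀ (w : List Bool) (ρ : ℕ), w.length ≤ p.eval n → ρ ≤ ℓ.eval n → A ∉ D (w, ρ) := by
      intro w ρ hw hρ hAw
      exact hA (Set.mem_biUnion (Finset.mem_coe.2 (Finset.mem_product.2
        ⟨mem_Sq.2 hw, Finset.mem_range.2 (Nat.lt_succ_of_le hρ)⟩)) hAw)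
    refine ⟨?_, ?_⟩
    · rintro ρ hρ ⟨w, hw, ψ, hψ1, hψ2, hψ3⟩
      obtain ⟨σ, hσ1, hσ2, hσ3⟩ : ∃ σ ≤ ℓ.eval n, σ ≤ ρ ∧
          numB (cir M C (mix A B) (pairBits w x)) ≤ σ := by
        refine ⟨min ρ (ℓ.eval n), min_le_right _ _, min_le_left _ _, le_min (hρ w hw) ?_⟩
        have h5 : ∀ l : List Op, numB l ≤ l.length := by
          intro l
          induction l with
          | nil => exact le_rfl
          | cons g l ih =>
            rcases g with i | ⟨q, k⟩ | ⟨q, t⟩
            · exact ih.trans (Nat.le_succ _)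
            · exact ih.trans (Nat.le_succ _)
            · simp only [numB, List.length_cons]
              split_ifs <;> omega
        refine (h5 _).trans ?_
        unfold cir
        cases ho : M.out (mix A B) (pairBits w x) with
        | none => exact Nat.zero_le _
        | some z => exact hg2 w x hw (mix A B) z ho
      have hy : YesE W α M (clip σ C) (p.eval n) (p.eval n) (pairBits w x) (mix A B) := by
        refine ⟨ψ, hψ1, hψ2, ?_⟩
        rw [cir_clip, if_pos hσ3]
        exact hψ3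
      have h1 : ∃ H, Ce w σ H A := by
        by_contra hc
        exact hA' w σ hw hσ1 (Or.inl ⟨hy, fun H hH => hc ⟨H, hH⟩⟩)
      obtain ⟨H, hH⟩ := h1
      refine ⟨H.image fun z => (z, A z), ⟨w, hw, σ, hσ1, H, A, hH, rfl⟩, ?_, ?_⟩
      · refine Finset.card_image_le.trans ((((hCe w σ hw).2.1 H A hH).2).trans ?_)
        refine (hd0 n σ hσ1).trans (Nat.pow_le_pow_right (by omega) ?_)
        exact Nat.mul_le_mul_left _ (Nat.pow_le_pow_left (Nat.succ_le_succ hσ2) 2)
      · intro e he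
        obtain ⟨z, -, rfl⟩ := Finset.mem_image.1 he
        rfl
    · rintro hno ⟨c, ⟨w, hw, ρ, hρ, H, A', hH, rfl⟩, hag⟩
      have hno' : NoE W β M (clip ρ C) (p.eval n) (p.eval n) (pairBits w x) (mix A B) := by
        intro ψ h1 h2
        rw [cir_clip]
        split_ifs
        · exact hno w hw ψ h1 h2
        · rw [acc_nil0]
          exact hβ
      refine hA' w ρ hw hρ (Or.inr ⟨hno', H, ?_⟩)
      refine (hCe w ρ hw).1 H A' A ?_ hH
      intro z hz
      exact (hag (z, A' z) (Finset.mem_image_of_mem _ hz)).symm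

end Pool.Agent.W938.QC
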