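import Pool.Agent.W938.QC.NPv
import Pool.Agent.W938.QB.Main

/-!
# Quantum proofs with few questions to a random oracle are classical proofs
-/

set_option autoImplicit false
set_option linter.unusedSectionVars false

namespace Pool.Agent.W938.QC

open Pool.Agent.NPC Pool.Agent.H620R2.Gauge Pool.Agent.W938.Hyb
open Pool.Agent.H628R3.RO (randomOracle)
open Pool.Agent.W938.QM (Agree bc)
open Pool.Agent.W938.QX (mix enc enc_long cut cut_cut exists_self kk kk_pos kk_le IsNPP)
open Pool.Agent.W938.QB (Op numB acc cir YesE NoE)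

/-- The verifiers. -/
def Ver : Type := {g : Alg × (List Bool → List Op) × Polynomial ℕ × ℕ × ℚ × ℚ //
  PolyTime (fun z => bits (g.2.1 z)) ∧ 0 ≤ g.2.2.2.2.2 ∧ g.2.2.2.2.2 < g.2.2.2.2.1}

instance : Countable Ver := by
  have h1 : Countable {D : List Bool → List Bool | PolyTime D} := countable_polyTime.to_subtype
  have h2 : Countable (Polynomial ℕ) := by
    have : Function.Injective (fun p : Polynomial ℕ => (p.toFinsupp.coeff : ℕ →₀ ℕ)) := by
      intro p q h
      ext n
      exact DFunLike.congr_fun h n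
    exact this.countable
  let F : Ver → Alg × {D : List Bool → List Bool | PolyTime D} × Polynomial ℕ × ℕ × ℚ × ℚ :=
    fun g => (g.1.1, ⟨fun z => bits (g.1.2.1 z), g.2.1⟩, g.1.2.2)
  have hF : Function.Injective F := by
    rintro ⟨⟨M, C, p⟩, h⟩ ⟨⟨M', C', p'⟩, h'⟩ heq
    simp only [F, Prod.mk.injEq, Subtype.mk.injEq] at heq
    obtain ⟨rfl, h3, rfl⟩ := heq
    have h4 : C = C' := by
      funext z
      exact bits_injective (congrFun h3 z)
    subst h4
    rfl
  exact hF.countable

theorem main (W : ℕ → ∀ b : ℕ, Set ((Fin b → Bool) → ℂ)) :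
    ∃ B : Oracle, ∀ᵐ A ∂randomOracle, ∀ (i : ℕ) (r : ℕ → ℕ) (c s : ℝ) (Y N : Set (List Bool)),
      0 ≤ s → s < c → IsQMA (W i) r c s (mix A B) Y N →
      ∃ d : ℕ, IsNW (fun n => (n + 2) ^ (d * (r n + 1) ^ 2)) (mix A B) Y N := by
  classical
  have hfam : ∀ g : Ver, _ := fun g => fam (W g.1.2.2.2.1) (g.1.2.2.2.2.1 : ℝ)
    (g.1.2.2.2.2.2 : ℝ) (by exact_mod_cast g.2.2.1) (kk g.1.2.2.2.2.1 g.1.2.2.2.2.2)
    (kk_pos g.2.2.2) (kk_le g.2.2.2) g.1.1 g.1.2.1 g.1.2.2.1 g.2.1
  choose P d hloc hP using hfam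
  choose T Bad hT1 hT2 hT3 hT4 using hP
  obtain ⟨ι, hι⟩ := Countable.exists_injective_nat (Ver × Finset (List Bool) × Finset (List Bool))
  set κ : Ver × Finset (List Bool) × Finset (List Bool) → List Bool := fun g =>
    List.replicate (ι g) true with hκ
  have hκi : Function.Injective κ := by
    intro g g' h
    apply hι
    have := congrArg List.length h
    simpa [hκ] using this
  set T' : Ver × Finset (List Bool) × Finset (List Bool) → Oracle → List Bool →
      Set (Finset (List Bool × Bool)) := fun g B x =>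
    if x ∈ g.2.1 then (if x ∈ g.2.2 then {∅} else ∅) else T g.1 B x with hT'
  obtain ⟨B, hBF⟩ := exists_self (fun u B => decide (∃ (g : Ver × Finset (List Bool) ×
    Finset (List Bool)) (w x : List Bool), u = enc (κ g) (P g.1) w x ∧
      ∃ c, unbits (List (List Bool × Bool)) w = some c ∧
        c.toFinset ∈ T' g (cut B ((P g.1).eval x.length + 1)) x))
  have hBs : ∀ g x w, B (enc (κ g) (P g.1) w x) = true ↔
      ∃ c, unbits (List (List Bool × Bool)) w = some c ∧
        c.toFinset ∈ T' g (cut B ((P g.1).eval x.length + 1)) x := by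
    intro g x w
    rw [hBF, decide_eq_true_eq]
    have hcut : ∀ g' : Ver × Finset (List Bool) × Finset (List Bool), g' = g →
        cut (cut B (enc (κ g) (P g.1) w x).length) ((P g'.1).eval x.length + 1) =
          cut B ((P g'.1).eval x.length + 1) := by
      rintro g' rfl
      exact cut_cut B (enc_long _ _ _ _)
    constructor
    · rintro ⟨g', w', x', h1, h2⟩
      have h3 := congrArg unpair h1
      unfold enc at h3
      rw [unpair_pairBits, unpair_pairBits, Prod.mk.injEq] at h3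
      have h4 := congrArg unpair h3.2
      rw [unpair_pairBits, unpair_pairBits, Prod.mk.injEq] at h4
      have h5 := congrArg unpair h4.2
      rw [unpair_pairBits, unpair_pairBits, Prod.mk.injEq] at h5
      have h6 := hκi h3.1
      obtain ⟨h7, -⟩ := h5
      obtain ⟨h8, -⟩ := h4
      subst h6 h7 h8
      rw [hcut g rfl] at h2
      exact h2
    · intro h
      refine ⟨g, w, x, rfl, ?_⟩
      rw [hcut g rfl]
      exact h
  refine ⟨B, ?_⟩
  have hae : ∀ᵐ A ∂randomOracle, ∀ g : Ver,
      {x | A ∈ Bad g (cut B ((P g).eval x.length + 1)) x}.Finite := by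
    rw [MeasureTheory.ae_all_iff]
    intro g
    exact bc (fun x => Bad g (cut B ((P g).eval x.length + 1)) x) (fun x => hT3 g _ x)
  filter_upwards [hae] with A hA i r c s Y N hs hsc hQ
  obtain ⟨F, C, p, ⟨M, hM⟩, hC, hnum, hx⟩ := hQ
  obtain ⟨β, hβ1, hβ2⟩ := exists_rat_btwn hsc
  obtain ⟨α, hα1, hα2⟩ := exists_rat_btwn hβ2
  have hβ0 : (0 : ℚ) ≤ β := by
    have : (0 : ℝ) ≤ (β : ℝ) := hs.trans hβ1.le
    exact_mod_cast this
  set g : Ver := ⟨(M, C, p, i, α, β), hC, hβ0, by exact_mod_cast hα1⟩ with hg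
  set E : Finset (List Bool) := (hA g).toFinset with hE
  set T0 : List Bool → Set (Finset (List Bool × Bool)) := fun x =>
    T' (g, E, E.filter fun x => x ∈ Y) (cut B ((P g).eval x.length + 1)) x with hT0
  have hc : ∀ w x, cir M C (mix A B) (pairBits w x) = C (F (pairBits w x)) := by
    intro w x
    unfold cir
    rw [hM]
  have hl := fun x => hloc g x (mix A B) (mix A (cut B ((P g).eval x.length + 1))) (by
    intro z hz
    unfold QX.mix cut
    rw [if_pos (Nat.lt_succ_of_le hz)])
  refine np_of A B (κ (g, E, E.filter fun x => x ∈ Y)) (P g) T0 ?_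
      (fun x w => hBs (g, E, E.filter fun x => x ∈ Y) x w) Y N r (d g) ?_ ?_
  · intro x e he
    simp only [hT0, hT'] at he
    split_ifs at he with h1 h2
    · rw [Set.mem_singleton_iff] at he
      subst he
      simp
    · exact absurd he (Set.notMem_empty _)
    · exact hT1 g _ x e he
  · intro x hxY
    simp only [hT0, hT']
    by_cases hxE : x ∈ E
    · rw [if_pos hxE, if_pos (Finset.mem_filter.2 ⟨hxE, hxY⟩)]
      exact ⟨∅, rfl, by simp, fun e he => absurd he (Finset.notMem_empty _)⟩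
    · rw [if_neg hxE]
      have hbad : A ∉ Bad g (cut B ((P g).eval x.length + 1)) x := by
        intro h
        exact hxE ((hA g).mem_toFinset.2 h)
      obtain ⟨h1, -⟩ := hT4 g _ x A hbad
      refine h1 (r x.length) ?_ ?_
      · intro w hw
        show numB (cir M C (mix A (cut B ((P g).eval x.length + 1))) (pairBits w x)) ≤ r x.length
        have h2 := (hl x w hw).1
        have h3 : cir M C (mix A (cut B ((P g).eval x.length + 1))) (pairBits w x) =
          cir M C (mix A B) (pairBits w x) := h2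
        rw [h3, hc]
        exact hnum w x hw
      · obtain ⟨w, ψ, hw, hψW, hψ, hacc⟩ := (hx x).1 hxY
        refine ⟨w, hw, (hl x w hw).2.1 ⟨ψ, hψW, hψ, ?_⟩⟩
        show (α : ℝ) ≤ acc (mix A B) (cir M C (mix A B) (pairBits w x)) _ ψ
        rw [hc]
        exact hα2.le.trans hacc
  · rintro x hxN ⟨e, he, hag⟩
    simp only [hT0, hT'] at he
    by_cases hxE : x ∈ E
    · rw [if_pos hxE] at he
      by_cases hxY : x ∈ Y
      · obtain ⟨w, ψ, hw, hψW, hψ, hacc⟩ := (hx x).1 hxY
        have h2 := (hx x).2 hxN w ψ hw hψW hψ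
        linarith
      · rw [if_neg (fun h => hxY (Finset.mem_filter.1 h).2)] at he
        exact absurd he (Set.notMem_empty _)
    · rw [if_neg hxE] at he
      have hbad : A ∉ Bad g (cut B ((P g).eval x.length + 1)) x := by
        intro h
        exact hxE ((hA g).mem_toFinset.2 h)
      obtain ⟨-, h2⟩ := hT4 g _ x A hbad
      refine h2 ?_ ⟨e, he, hag⟩
      intro w hw
      refine (hl x w hw).2.2 fun ψ hψW hψ => ?_
      show acc (mix A B) (cir M C (mix A B) (pairBits w x)) _ ψ ≤ (β : ℝ)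
      rw [hc]
      exact ((hx x).2 hxN w ψ hw hψW hψ).trans hβ1.le

/-- Proofs of polynomial length. -/
theorem npp_of_nw {f : ℕ → ℕ} {O : Oracle} {Y N : Set (List Bool)} (h : IsNW f O Y N)
    (p : Polynomial ℕ) (hp : ∀ n, f n ≤ p.eval n) : IsNPP O Y N := by
  obtain ⟨V, hV, hx⟩ := h
  refine ⟨{x | ∃ w : List Bool, w.length ≤ p.eval x.length ∧ V (pairBits w x) = [true]},
    ⟨V, p, hV, fun x => Iff.rfl⟩, ?_, ?_⟩
  · intro x hxY
    obtain ⟨w, hw, h1⟩ := (hx x).1 hxY
    exact ⟨w, hw.trans (hp _), h1⟩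
  · rw [Set.disjoint_left]
    rintro x ⟨w, -, h1⟩ hxN
    exact (hx x).2 hxN w h1

/-- Classical proofs are quantum proofs without questions in superposition. -/
theorem conv (W : ∀ b : ℕ, Set ((Fin b → Bool) → ℂ)) (hW : ∀ b, ∃ ψ ∈ W b, ∑ t, ‖ψ t‖ ^ 2 = 1)
    (r : ℕ → ℕ) (c s : ℝ) (hc : c ≤ 1) (hs : 0 ≤ s) (O : Oracle) (Y N : Set (List Bool))
    (h : IsNPP O Y N) : IsQMA W r c s O Y N := by
  obtain ⟨F, C, p, hF, hC, hnum, hx⟩ := QB.conv W hW 0 c s hc hs O Y N h
  exact ⟨F, C, p, hF, hC, fun w x _ => (hnum _).trans (Nat.zero_le _), hx⟩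

end Pool.Agent.W938.QC
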