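import Pool.Agent.W938.QC.Fam
import Pool.Agent.W938.QX.NPv

/-!
# The verifier for the certificates
-/

set_option autoImplicit false
set_option linter.unusedSectionVars false

namespace Pool.Agent.W938.QC

open Pool.Agent.NPC Pool.Agent.H620R2.Gauge Pool.Agent.W938.Hyb
open Pool.Agent.H889R3.RQ (poly_bound)
open Pool.Agent.W938.QM (Agree cert poly_cert)
open Pool.Agent.W938.QX (mix mix_even mix_odd enc enc_odd poly_rep)

theorem np_of (A B : Oracle) (κ : List Bool) (P : Polynomial ℕ)
    (T : List Bool → Set (Finset (List Bool × Bool)))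
    (hT : ∀ x, ∀ c ∈ T x, ∀ e ∈ c, e.1.length ≤ P.eval x.length ∧ e.1.length % 2 = 0)
    (hB : ∀ x w, B (enc κ P w x) = true ↔
      ∃ c, unbits (List (List Bool × Bool)) w = some c ∧ c.toFinset ∈ T x)
    (Y N : Set (List Bool)) (r : ℕ → ℕ) (d : ℕ)
    (hY : ∀ x ∈ Y, ∃ c ∈ T x, c.card ≤ (x.length + 2) ^ (d * (r x.length + 1) ^ 2) ∧ Agree A c)
    (hN : ∀ x ∈ N, ¬ ∃ c ∈ T x, Agree A c) :
    ∃ d' : ℕ, IsNW (fun n => (n + 2) ^ (d' * (r n + 1) ^ 2)) (mix A B) Y N := by
  classical
  set Q : List Bool → List (List Bool) := fun z =>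
    enc κ P (unpair z).1 (unpair z).2 :: (cert z).map (fun e => e.1) with hQ
  set H : List Bool × List Bool → List Bool := fun y =>
    [decide (y.2 = true :: (cert y.1).map Prod.snd)] with hH
  have pQ : NPC.Poly Q :=
    NPC.Poly.cons (Pool.Agent.H622R2.poly_pairBits (NPC.Poly.const κ)
      (Pool.Agent.H622R2.poly_pairBits (NPC.Poly.fst poly_unpair)
        (Pool.Agent.H622R2.poly_pairBits (NPC.Poly.snd poly_unpair)
          (poly_rep P (NPC.Poly.snd poly_unpair)))))
      (NPC.Poly.map (F := fun (_ : List Bool) (e : List Bool × Bool) => e.1) poly_cert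
        (NPC.Poly.fst (NPC.Poly.snd NPC.Poly.id)))
  have pH : NPC.Poly H :=
    NPC.Poly.cons (NPC.Poly.decide_eq (NPC.Poly.snd NPC.Poly.id) (NPC.Poly.cons (NPC.Poly.const true)
      (NPC.Poly.map (F := fun (_ : List Bool × List Bool) (e : List Bool × Bool) => e.2)
        (poly_cert.comp (NPC.Poly.fst NPC.Poly.id)) (NPC.Poly.snd (NPC.Poly.snd NPC.Poly.id)))))
      (NPC.Poly.const [])
  obtain ⟨a, ha⟩ := poly_bound (4 * P + 7)
  refine ⟨d + a, fun z => H (z, (Q z).map (mix A B)), IsFP.tt pQ pH, fun x => ?_⟩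
  have hV : ∀ w, H (pairBits w x, (Q (pairBits w x)).map (mix A B)) = [true] ↔
      B (enc κ P w x) = true ∧ ∀ e ∈ cert (pairBits w x), mix A B e.1 = e.2 := by
    intro w
    have e1 : (Q (pairBits w x)).map (mix A B) = B (enc κ P w x) ::
        (cert (pairBits w x)).map (fun e => mix A B e.1) := by
      simp only [hQ, List.map_cons, List.map_map, unpair_pairBits]
      rw [mix_odd (enc_odd κ P w x)]
      rfl
    simp only [hH, e1, List.cons.injEq, and_true, decide_eq_true_eq, QM.map_iff]
  have hcert : ∀ w c, unbits (List (List Bool × Bool)) w = some c → cert (pairBits w x) = c := by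
    intro w c hc
    unfold cert
    rw [unpair_pairBits, hc]
  constructor
  · intro hx
    obtain ⟨c, hc, h1, hag⟩ := hY x hx
    have h2 := hT x c hc
    refine ⟨bits c.toList, ?_, ?_⟩
    · rw [bits_length]
      have h3 : sz c.toList ≤ c.toList.length * (4 * P.eval x.length + 5 + 1) + 1 := by
        refine sz_le_length_mul _ _ fun e he => ?_
        have h4 := (h2 e (Finset.mem_toList.1 he)).1
        have h5 := sz_listBool_le e.1
        have h6 := sz_bool_le e.2
        have h7 : sz e = sz e.1 + sz e.2 + 1 := sz_pair e.1 e.2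
        omega
      rw [Finset.length_toList] at h3
      refine h3.trans ?_
      have h8 := ha x.length
      simp only [Polynomial.eval_add, Polynomial.eval_mul, Polynomial.eval_ofNat] at h8
      have h9 : 1 ≤ (x.length + 2) ^ (d * (r x.length + 1) ^ 2) := Nat.one_le_pow _ _ (by omega)
      have h10 : 1 ≤ (r x.length + 1) ^ 2 := Nat.one_le_pow _ _ (by omega)
      calc c.card * (4 * P.eval x.length + 5 + 1) + 1
          ≤ (x.length + 2) ^ (d * (r x.length + 1) ^ 2) * (4 * P.eval x.length + 5 + 1) +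
            (x.length + 2) ^ (d * (r x.length + 1) ^ 2) * 1 :=
            Nat.add_le_add (Nat.mul_le_mul_right _ h1) (by rwa [mul_one])
        _ = (x.length + 2) ^ (d * (r x.length + 1) ^ 2) * (4 * P.eval x.length + 7) := by
            rw [← mul_add]
        _ ≤ (x.length + 2) ^ (d * (r x.length + 1) ^ 2) * (x.length + 2) ^ a :=
            Nat.mul_le_mul_left _ h8
        _ = (x.length + 2) ^ (d * (r x.length + 1) ^ 2 + a) := by rw [pow_add]
        _ ≤ (x.length + 2) ^ ((d + a) * (r x.length + 1) ^ 2) := by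
            refine Nat.pow_le_pow_right (by omega) ?_
            rw [add_mul]
            exact Nat.add_le_add_left (Nat.le_mul_of_pos_right _ h10) _
    · show H (pairBits (bits c.toList) x, _) = [true]
      rw [hV]
      have h9 := unbits_bits c.toList
      refine ⟨(hB x _).2 ⟨_, h9, ?_⟩, ?_⟩
      · rw [Finset.toList_toFinset]
        exact hc
      · rw [hcert _ _ h9]
        intro e he
        rw [mix_even (h2 e (Finset.mem_toList.1 he)).2]
        exact hag e (Finset.mem_toList.1 he)
  · intro hx w hw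
    change H (pairBits w x, (Q (pairBits w x)).map (mix A B)) = [true] at hw
    rw [hV] at hw
    obtain ⟨h1, h2⟩ := hw
    obtain ⟨c, h3, h4⟩ := (hB x w).1 h1
    rw [hcert _ _ h3] at h2
    refine hN x hx ⟨c.toFinset, h4, fun e he => ?_⟩
    have h5 := h2 e (List.mem_toFinset.1 he)
    rwa [mix_even (hT x _ h4 e he).2] at h5

end Pool.Agent.W938.QC
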